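import Pool.Agent.T9h58.Sel.Low

/-!
# Over every number field the trivial sequence has positive lower density at `p = 2`

Let `F` be any number field. All elliptic curves `A` over `F`, up to `F`-isomorphism, are ordered by the
height of the problem, the minimum of `∏ max (|a|_v ^ 3, |b|_v ^ 2)` (over the infinite places `v`, with
normalised absolute values) over the models `y ^ 2 = x ^ 3 + a x + b` with `a`, `b` integers of `F`.

Theorem. `Sel_{2^∞}(A / F) = 0` for a positive proportion of the `A`: the lower density of
`{A : Seq_A ≃ (0 → 0 → 0 → 0 → 0)}` at `p = 2` is positive.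

The Selmer group is the kernel of `H¹(F, A[2^∞]) → ∏ H¹(F_v, A)`, the product over all places, in terms
of continuous cocycles of the absolute Galois groups; it does not depend on the equation of `A`.

The proof. The library theorem of project PF (helper783, with parts by many others, see the header of
`MP_7cad78_nt.RankZeroEveryNumberField`) gives `≥ c B ^ (5 n)`, `n = [F : ℚ]`, pairs `(a, b)` of integers
with all conjugates of `a`, `b` at most `B ^ 2`, `B ^ 3`, without prime `𝔭` with `𝔭 ^ 4 ∣ a`, `𝔭 ^ 6 ∣ b`,
for which the group of points is finite of odd order and the 2-primary part of the Tate-Shafarevich group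
is zero. We discard the pairs for which a conjugate of `b` is small (few, by a pigeonhole argument with
translates by integers); for the remaining ones the pairs with isomorphic curves differ by the finitely
many integers of bounded size. In the other direction Dirichlet's unit theorem gives every elliptic curve
of height at most `B ^ (6 n)` a model in a box of size `O(B ^ 2) × O(B ^ 3)`, so that there are
`O(B ^ (5 n))` of them. Finally, a cocycle with values in the points of 2-power order which is
everywhere locally trivial is the coboundary of a point `Q` with `2 ^ m Q` rational, and `2 ^ m Q` is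
divisible by `2 ^ m` in the finite group of rational points of odd order.
-/

set_option autoImplicit false

namespace Pool.Agent.Results.MP_a3f657_nt.TrivialSelmerNumberFields

open Filter NumberField
open Pool.Agent.T9h58.Sel

/-- The proportion of the elliptic curves `A` over `F` (up to isomorphism) with `Sel_{2^∞}(A / F) = 0`
among those of height at most `X`. -/
noncomputable def proportion (F : Type) [Field F] [NumberField F] (X : ℝ) : ℝ :=
  ({A : EllipticCurves F | height A ≤ X ∧ TrivialSelmer 2 A}.ncard : ℝ) /
    ({A : EllipticCurves F | height A ≤ X}.ncard : ℝ)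

/-- **Trivial `2^∞`-Selmer groups over every number field.** The height of every elliptic curve is attained
by a model, there are finitely many elliptic curves of bounded height, and the lower density of the
elliptic curves with `Sel_{2^∞}(A / F) = 0` is positive. -/
theorem result (F : Type) [Field F] [NumberField F] :
    (∀ A : EllipticCurves F, ∃ q ∈ models A, height A = modelHeight q ∧
      ∀ q' ∈ models A, modelHeight q ≤ modelHeight q') ∧
    (∀ X : ℝ, {A : EllipticCurves F | height A ≤ X}.Finite) ∧
    (∃ c : ℝ, 0 < c ∧ ∀ᶠ X : ℝ in atTop, c ≤ proportion F X) ∧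
    0 < liminf (proportion F) atTop := by
  obtain ⟨C, hC, hup⟩ := upper F
  obtain ⟨c, hc, B₀, hB₀, hlow⟩ := lower F
  set n := Module.finrank ℚ F with hn
  have hn0 : 0 < n := Module.finrank_pos
  have hroot : ∀ X : ℝ, 0 ≤ X → (X ^ (1 / ((6 * n : ℕ) : ℝ))) ^ (6 * n) = X := by
    intro X hX
    rw [← Real.rpow_natCast, ← Real.rpow_mul hX, one_div_mul_cancel (by positivity), Real.rpow_one]
  have hfin : ∀ X : ℝ, {A : EllipticCurves F | height A ≤ X}.Finite := by
    intro X
    set Y : ℝ := max 1 X with hY
    have hY1 : 1 ≤ Y := le_max_left _ _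
    have h1 := (hup (Y ^ (1 / ((6 * n : ℕ) : ℝ))) (Real.one_le_rpow hY1 (by positivity))).1
    rw [hroot Y (by linarith)] at h1
    refine h1.subset fun A hA => ?_
    have hA' : height A ≤ X := hA
    exact hA'.trans (le_max_right 1 X)
  have hev : ∀ᶠ X : ℝ in atTop, c / (C * 2 ^ (5 * n)) ≤ proportion F X := by
    filter_upwards [eventually_ge_atTop ((B₀ : ℝ) ^ (6 * n))] with X hX
    have hB₀r : (1 : ℝ) ≤ B₀ := by exact_mod_cast hB₀
    have hX1 : 1 ≤ X := (one_le_pow₀ hB₀r).trans hX
    set T : ℝ := X ^ (1 / ((6 * n : ℕ) : ℝ)) with hT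
    have hTX : T ^ (6 * n) = X := hroot X (by linarith)
    have hT1 : 1 ≤ T := Real.one_le_rpow hX1 (by positivity)
    have hBT : (B₀ : ℝ) ≤ T := by
      refine le_of_pow_le_pow_left₀ (n := 6 * n) (by omega) (by linarith) ?_
      rw [hTX]
      exact hX
    set B : ℕ := ⌊T⌋₊ with hB
    have hBB : B₀ ≤ B := Nat.le_floor hBT
    have hB1 : (B : ℝ) ≤ T := Nat.floor_le (by linarith)
    have hB2 : T ≤ 2 * B := by
      have h1 : T < B + 1 := Nat.lt_floor_add_one T
      have h2 : (1 : ℝ) ≤ B := by exact_mod_cast hB₀.trans hBB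
      linarith
    obtain ⟨hf, hu⟩ := hup T hT1
    rw [hTX] at hf hu
    have hl := hlow B hBB
    have hsub : {A : EllipticCurves F | height A ≤ (B : ℝ) ^ (6 * n) ∧ TrivialSelmer 2 A} ⊆
        {A : EllipticCurves F | height A ≤ X ∧ TrivialSelmer 2 A} := by
      rintro A ⟨h1, h2⟩
      refine ⟨h1.trans ?_, h2⟩
      rw [← hTX]
      exact pow_le_pow_left₀ (Nat.cast_nonneg _) hB1 _
    have hl2 : c * (B : ℝ) ^ (5 * n) ≤
        ({A : EllipticCurves F | height A ≤ X ∧ TrivialSelmer 2 A}.ncard : ℝ) := by
      refine hl.trans ?_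
      exact_mod_cast Set.ncard_le_ncard hsub (hf.subset fun A hA => hA.1)
    have hl3 : c * T ^ (5 * n) / 2 ^ (5 * n) ≤
        ({A : EllipticCurves F | height A ≤ X ∧ TrivialSelmer 2 A}.ncard : ℝ) := by
      refine le_trans ?_ hl2
      rw [div_le_iff₀ (by positivity)]
      calc c * T ^ (5 * n) ≤ c * (2 * B) ^ (5 * n) := by gcongr
        _ = c * (B : ℝ) ^ (5 * n) * 2 ^ (5 * n) := by
          rw [mul_pow]
          ring
    have hT0 : 0 < T ^ (5 * n) := by positivity
    have hpos : (0 : ℝ) < ({A : EllipticCurves F | height A ≤ X}.ncard : ℝ) := by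
      have h1 : (0 : ℝ) < ({A : EllipticCurves F | height A ≤ X ∧ TrivialSelmer 2 A}.ncard : ℝ) :=
        lt_of_lt_of_le (by positivity) hl3
      refine lt_of_lt_of_le h1 ?_
      exact_mod_cast Set.ncard_le_ncard
        (fun A hA => hA.1 : {A : EllipticCurves F | height A ≤ X ∧ TrivialSelmer 2 A} ⊆ _) hf
    unfold proportion
    rw [le_div_iff₀ hpos]
    calc c / (C * 2 ^ (5 * n)) * ({A : EllipticCurves F | height A ≤ X}.ncard : ℝ)
        ≤ c / (C * 2 ^ (5 * n)) * (C * T ^ (5 * n)) := by gcongr
      _ = c * T ^ (5 * n) / 2 ^ (5 * n) := by field_simp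
      _ ≤ _ := hl3
  have hc0 : 0 < c / (C * 2 ^ (5 * n)) := by positivity
  refine ⟨height_attained, hfin, ⟨_, hc0, hev⟩, lt_of_lt_of_le hc0 ?_⟩
  refine le_liminf_of_le ?_ hev
  refine IsBoundedUnder.isCoboundedUnder_ge ?_
  refine isBoundedUnder_of ⟨1, fun X => ?_⟩
  refine div_le_one_of_le₀ ?_ (Nat.cast_nonneg _)
  exact_mod_cast Set.ncard_le_ncard
    (fun A hA => hA.1 : {A : EllipticCurves F | height A ≤ X ∧ TrivialSelmer 2 A} ⊆ _) (hfin X)

end Pool.Agent.Results.MP_a3f657_nt.TrivialSelmerNumberFields
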