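import Pool.Agent.T9h58.Sel.FF2

/-!
# Over every rational function field of characteristic at least five the trivial sequence has positive
# lower density at `p = 2`

Let `k` be a finite field of characteristic at least `5` with `q` elements, and `K = k(t)`. All elliptic
curves `A` over `K`, with constant or non-constant `j`-invariant, up to `K`-isomorphism, are ordered by the
height of the problem: `H(A) = q ^ d`, `d` the least degree of a line bundle `O(d)` on the projective line
such that `A` has a Weierstrass equation with coefficients `a_i ∈ H⁰(P¹, O(d) ^ i)`, that is, polynomials in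
`t` of degree at most `i d`.

Theorem. `Sel_{2^∞}(A / K) = 0` for a positive proportion of the `A`: the lower density of
`{A : Seq_A ≃ (0 → 0 → 0 → 0 → 0)}` at `p = 2` is positive.

The Selmer group is the kernel of `H¹(K, A[2^∞]) → ∏ H¹(K_v, A)`, the product over all places of `K`
(including `t = ∞`), in terms of continuous cocycles of the absolute Galois groups; it does not depend on
the equation of `A`.

The proof uses the library theorem of project PP (helper874, with parts by many others, see the header of
`MP_48b749_nt.PositiveProportionOfCurves`): `≥ c q ^ (10 N)` minimal pairs `(a, b)` with `deg a ≤ 4 N`,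
`deg b ≤ 6 N` have a finite group of rational points, divisible by two, and no element of order two in the
Tate-Shafarevich group. At most `q` of the pairs belong to an isomorphism class, and every elliptic curve
with `H(A) ≤ q ^ N` has an equation `y ^ 2 = x ^ 3 + a x + b` with `deg a ≤ 4 N`, `deg b ≤ 6 N`, so that there
are at most `q ^ (10 N + 2)` of them. A cocycle with values in the points of 2-power order which is
everywhere locally trivial is the coboundary of a point `Q` with `2 ^ m Q` rational, and `2 ^ m Q` is
divisible by `2 ^ m` in the finite group of rational points of odd order.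
-/

set_option autoImplicit false

namespace Pool.Agent.Results.MP_a3f657_nt.TrivialSelmerRationalFF

open Filter Polynomial
open Pool.Agent.T9h58.Sel

/-- The proportion of the elliptic curves `A` over `K = k(t)` (up to isomorphism) with
`Sel_{2^∞}(A / K) = 0` among those of height at most `X`. -/
noncomputable def proportion (k K : Type) [Field k] [Field K] [Algebra k[X] K]
    [IsFractionRing k[X] K] (x : ℝ) : ℝ :=
  ({A : EllipticCurves K | heightFF k A ≤ x ∧ TrivialSelmerFF k 2 A}.ncard : ℝ) /
    ({A : EllipticCurves K | heightFF k A ≤ x}.ncard : ℝ)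

/-- **Trivial `2^∞`-Selmer groups over rational function fields.** Every elliptic curve has a model, there
are finitely many elliptic curves of bounded height, and the lower density of the elliptic curves with
`Sel_{2^∞}(A / K) = 0` is positive. -/
theorem result (k : Type) [Field k] [Finite k] (h6 : (6 : k) ≠ 0) (K : Type) [Field K]
    [Algebra k[X] K] [IsFractionRing k[X] K] :
    (∀ A : EllipticCurves K, ∃ d : ℕ, HasModel k A d) ∧
    (∀ x : ℝ, {A : EllipticCurves K | heightFF k A ≤ x}.Finite) ∧
    (∃ c : ℝ, 0 < c ∧ ∀ᶠ x : ℝ in atTop, c ≤ proportion k K x) ∧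
    0 < liminf (proportion k K) atTop := by
  obtain ⟨c, hc, N₀, hlow⟩ := lowerFF K h6
  set q : ℕ := Nat.card k with hq
  have hq1 : 1 < q := Finite.one_lt_card
  have hqr : (1 : ℝ) < q := by exact_mod_cast hq1
  have hq0 : (0 : ℝ) < q := by linarith
  -- heights and degrees
  have hht : ∀ x : ℝ, 1 ≤ x → ∀ A : EllipticCurves K,
      heightFF k A ≤ x ↔ modelDegree k A ≤ Nat.log q ⌊x⌋₊ := by
    intro x hx A
    have hx0 : ⌊x⌋₊ ≠ 0 := by
      have : 1 ≤ ⌊x⌋₊ := Nat.le_floor (by exact_mod_cast hx)
      omega
    rw [Nat.le_log_iff_pow_le hq1 hx0, Nat.le_floor_iff (by linarith)]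
    unfold heightFF
    push_cast
    rfl
  have hfin : ∀ x : ℝ, {A : EllipticCurves K | heightFF k A ≤ x}.Finite := by
    intro x
    have h1 := (upperFF K h6 (Nat.log q ⌊max 1 x⌋₊)).1
    refine h1.subset fun A hA => ?_
    have hA' : heightFF k A ≤ x := hA
    exact (hht (max 1 x) (le_max_left _ _) A).1 (hA'.trans (le_max_right _ _))
  have hev : ∀ᶠ x : ℝ in atTop, c / (q : ℝ) ^ 2 ≤ proportion k K x := by
    filter_upwards [eventually_ge_atTop ((q : ℝ) ^ N₀)] with x hx
    have hx1 : 1 ≤ x := (one_le_pow₀ hqr.le).trans hx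
    set N : ℕ := Nat.log q ⌊x⌋₊ with hN
    have hx0 : ⌊x⌋₊ ≠ 0 := by
      have : 1 ≤ ⌊x⌋₊ := Nat.le_floor (by exact_mod_cast hx1)
      omega
    have hNN : N₀ ≤ N := by
      rw [hN, Nat.le_log_iff_pow_le hq1 hx0, Nat.le_floor_iff (by linarith)]
      exact_mod_cast hx
    have e1 : {A : EllipticCurves K | heightFF k A ≤ x} =
        {A : EllipticCurves K | modelDegree k A ≤ N} := by
      ext A
      exact hht x hx1 A
    have e2 : {A : EllipticCurves K | heightFF k A ≤ x ∧ TrivialSelmerFF k 2 A} =
        {A : EllipticCurves K | modelDegree k A ≤ N ∧ TrivialSelmerFF k 2 A} := by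
      ext A
      exact and_congr (hht x hx1 A) Iff.rfl
    obtain ⟨hf, hu⟩ := upperFF K h6 N
    have hl := hlow N hNN
    have hqN : (0 : ℝ) < (q : ℝ) ^ (10 * N) := by positivity
    have hpos : (0 : ℝ) < ({A : EllipticCurves K | modelDegree k A ≤ N}.ncard : ℝ) := by
      have h1 : (0 : ℝ) <
          ({A : EllipticCurves K | modelDegree k A ≤ N ∧ TrivialSelmerFF k 2 A}.ncard : ℝ) :=
        lt_of_lt_of_le (by positivity) hl
      refine lt_of_lt_of_le h1 ?_
      exact_mod_cast Set.ncard_le_ncard
        (fun A hA => hA.1 : {A : EllipticCurves K | modelDegree k A ≤ N ∧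
          TrivialSelmerFF k 2 A} ⊆ _) hf
    unfold proportion
    rw [e1, e2, le_div_iff₀ hpos]
    have hu' : ({A : EllipticCurves K | modelDegree k A ≤ N}.ncard : ℝ) ≤
        (q : ℝ) ^ (10 * N) * (q : ℝ) ^ 2 := by
      rw [← pow_add]
      exact_mod_cast hu
    calc c / (q : ℝ) ^ 2 * ({A : EllipticCurves K | modelDegree k A ≤ N}.ncard : ℝ)
        ≤ c / (q : ℝ) ^ 2 * ((q : ℝ) ^ (10 * N) * (q : ℝ) ^ 2) := by gcongr
      _ = c * (q : ℝ) ^ (10 * N) := by field_simp
      _ ≤ _ := hl
  have hc0 : 0 < c / (q : ℝ) ^ 2 := by positivity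
  refine ⟨exists_hasModel h6, hfin, ⟨_, hc0, hev⟩, lt_of_lt_of_le hc0 ?_⟩
  refine le_liminf_of_le ?_ hev
  refine IsBoundedUnder.isCoboundedUnder_ge ?_
  refine isBoundedUnder_of ⟨1, fun x => ?_⟩
  refine div_le_one_of_le₀ ?_ (Nat.cast_nonneg _)
  exact_mod_cast Set.ncard_le_ncard
    (fun A hA => hA.1 : {A : EllipticCurves K | heightFF k A ≤ x ∧ TrivialSelmerFF k 2 A} ⊆ _)
    (hfin x)

end Pool.Agent.Results.MP_a3f657_nt.TrivialSelmerRationalFF
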